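import Pool.Agent.Results.MP_bf81c2_nt.LinnikExponent
import Pool.Agent.X283.DA.CountPack

/-!
# The number of the extensions of degree `n` of the number fields with discriminants in short intervals at real
powers and at denominators of approximations

There is a function `e(n) ≥ 1` of growth at most `(1 / (8 (log 2)²) + o(1)) (log n)²` such that for every `n ≥ 2`,
`0 ≤ θ ≤ 1`, `0 ≤ β ≤ e(n)` and `σ = e(n) - β + θ`: for all `t > 1` outside a set of dimension at most `σ` (for
almost all `t` if `β > e(n) - 1 + θ`), ALL number fields `K` (in a fixed algebraic closure of `ℚ`) and all large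
`j` there are at most `w ^ β` extensions `L` of degree `n` of `K` with `||D_L| - w| ≤ w ^ θ`, `w = t ^ κ_j`
(`κ_j / log j → ∞`, for example `κ_j = j`); for `w = j ^ t` the same with dimension `σ + 1 / a`, `t ≥ a`; and for
almost all `x ∈ ℝ ^ d` and all large denominators `w = q` with `‖q x_j - y_j‖ ≤ q ^ (-η_j)`, if
`η_1 + ... + η_d > σ`.
-/

set_option autoImplicit false

namespace Pool.Agent.Results.MP_bf81c2_nt.CountsAtPowersAndDenominators

open NumberField
open Pool.Agent.X283.DA

/-- The number fields inside the algebraic closure of `ℚ`. -/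
def NF : Type := {K : IntermediateField ℚ (AlgebraicClosure ℚ) // FiniteDimensional ℚ K}

instance (K : NF) : NumberField K.1 := by
  have := K.2
  exact { to_charZero := inferInstance, to_finiteDimensional := inferInstance }

/-- The extensions `L` of degree `n` of the number field `K` inside the algebraic closure of `K`. -/
def ExtOf (K : Type) [Field K] (n : ℕ) : Set (IntermediateField K (AlgebraicClosure K)) :=
  {L | Module.finrank K L = n ∧ NumberField L}

open Classical in
/-- The absolute value `|D_L|` of the discriminant of the number field `L`. -/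
noncomputable def discOf (K : Type) [Field K] (L : IntermediateField K (AlgebraicClosure K)) : ℝ :=
  if h : NumberField L then ((|@NumberField.discr L _ h| : ℤ) : ℝ) else 0

/-- The fields between `K` and its algebraic closure. -/
def Sub (K : NF) : Type := IntermediateField K.1 (AlgebraicClosure K.1)

/-- The extensions `L` of degree `n` of `K` inside the algebraic closure of `K`. -/
def Ext (n : ℕ) (K : NF) : Set (Sub K) := ExtOf K.1 n

/-- The absolute value `|D_L|` of the discriminant of `L`. -/
noncomputable def disc (K : NF) : Sub K → ℝ := discOf K.1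

/-- The three assertions for the extensions of degree `n` of all number fields `K` at once, counted by `|D_L|`. -/
def Bounds (n : ℕ) (θ β σ : ℝ) : Prop :=
  CountAtPowers (Ext n) disc θ β σ ∧ CountAtExponents (Ext n) disc θ β σ ∧ CountAtDenominators (Ext n) disc θ β σ

theorem isAlg : Algebra.IsAlgebraic ℚ (AlgebraicClosure ℚ) := by
  have h := AlgebraicClosure.isAlgebraic ℚ
  have e : (AlgebraicClosure.instAlgebra ℚ : Algebra ℚ (AlgebraicClosure ℚ)) = DivisionRing.toRatAlgebra :=
    Subsingleton.elim _ _
  rw [e] at h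
  exact h

instance countable_NF : Countable NF := by
  have hA := isAlg
  have : Countable (AlgebraicClosure ℚ) := by
    rw [← Cardinal.mk_le_aleph0_iff]
    have := Algebra.IsAlgebraic.cardinalMk_le_max ℚ (AlgebraicClosure ℚ)
    simpa using this
  have h : ∀ K : NF, ∃ s : Finset (AlgebraicClosure ℚ),
      IntermediateField.adjoin ℚ (s : Set (AlgebraicClosure ℚ)) = K.1 := by
    intro K
    have := K.2
    have h1 : K.1.toSubalgebra.FG := by
      rw [Subalgebra.fg_iff_finiteType]
      change Algebra.FiniteType ℚ K.1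
      infer_instance
    exact IntermediateField.fg_of_fg_toSubalgebra K.1 h1
  choose f hf using h
  have hinj : Function.Injective f := fun K L hKL => by
    apply Subtype.ext
    rw [← hf K, ← hf L, hKL]
  exact hinj.countable

/-- **Theorem.** There is a function `e(n) ≥ 1` whose growth is at most `(1 / (8 (log 2)²) + o(1)) (log n)²` such
that for every `n ≥ 2`, `0 ≤ θ ≤ 1` and `0 ≤ β ≤ e(n)`, for the extensions `L` of degree `n` of all number fields
`K` at once, counted by `|D_L|`, the assertions `CountAtPowers`, `CountAtExponents` and `CountAtDenominators` hold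
with `σ = e(n) - β + θ`. -/
theorem result : ∃ e : ℕ → ℝ,
    (∀ c : ℝ, 1 / (8 * (Real.log 2) ^ 2) < c → ∀ᶠ n : ℕ in Filter.atTop, e n ≤ c * (Real.log n) ^ 2) ∧
    (∀ n, 1 ≤ e n) ∧
    ∀ n : ℕ, 2 ≤ n → ∀ θ β : ℝ, 0 ≤ θ → θ ≤ 1 → 0 ≤ β → β ≤ e n → Bounds n θ β (e n - β + θ) := by
  classical
  obtain ⟨e₀, he1, he2⟩ := Pool.Agent.Results.MP_bf81c2_nt.LinnikExponent.result
  obtain ⟨e, he⟩ : ∃ e : ℕ → ℝ, ∀ n, e n = max (e₀ n) 1 := ⟨_, fun _ => rfl⟩
  refine ⟨e, fun c hc => ?_, fun n => ?_, ?_⟩
  · have hc0 : 0 < c := lt_trans (by have := Real.log_pos (show (1 : ℝ) < 2 by norm_num); positivity) hc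
    have hlog : Filter.Tendsto (fun n : ℕ => Real.log n) Filter.atTop Filter.atTop :=
      Real.tendsto_log_atTop.comp tendsto_natCast_atTop_atTop
    have h1 : Filter.Tendsto (fun n : ℕ => c * (Real.log n) ^ 2) Filter.atTop Filter.atTop :=
      Filter.Tendsto.const_mul_atTop hc0 ((Filter.tendsto_pow_atTop two_ne_zero).comp hlog)
    filter_upwards [he1 c hc, h1.eventually_ge_atTop 1] with n hn1 hn2
    rw [he]
    exact max_le hn1 hn2
  · rw [he]
    exact le_max_right _ _
  intro n hn θ β hθ hθ1 hβ hβe
  have hen : 1 ≤ e n := by rw [he]; exact le_max_right _ _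
  refine count_pack (Ext n) disc (by linarith) hθ hθ1 hβ hβe fun K => ?_
  obtain ⟨C, hC⟩ := he2 n hn (Module.finrank ℚ K.1)
  have hC₀ := hC K.1 rfl
  have hhe : ∀ X : ℝ, {L : IntermediateField K.1 (AlgebraicClosure K.1) | L ∈ ExtOf K.1 n ∧ discOf K.1 L ≤ X} =
      Pool.Agent.Results.MP_bf81c2_nt.LinnikExponent.Fields K.1 n X := by
    intro X
    ext L
    constructor
    · rintro ⟨⟨h1, h2⟩, h3⟩
      refine ⟨h1, h2, ?_⟩
      unfold discOf at h3
      rwa [dif_pos h2] at h3
    · rintro ⟨h1, h2, h3⟩
      refine ⟨⟨h1, h2⟩, ?_⟩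
      unfold discOf
      rwa [dif_pos h2]
  intro ε hε
  refine ⟨|C|, fun X hX => ?_⟩
  change {L : IntermediateField K.1 (AlgebraicClosure K.1) | L ∈ ExtOf K.1 n ∧ discOf K.1 L ≤ X}.Finite ∧
    ({L : IntermediateField K.1 (AlgebraicClosure K.1) | L ∈ ExtOf K.1 n ∧ discOf K.1 L ≤ X}.ncard : ℝ) ≤ _
  rw [hhe X]
  refine ⟨(hC₀ X hX).1, (hC₀ X hX).2.trans ?_⟩
  have h1 : X ^ e₀ n ≤ X ^ (e n + ε) := Real.rpow_le_rpow_of_exponent_le hX (by
    have : e₀ n ≤ e n := by rw [he]; exact le_max_left _ _
    linarith)
  exact (mul_le_mul_of_nonneg_right (le_abs_self C) (by positivity)).trans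
    (mul_le_mul_of_nonneg_left h1 (abs_nonneg C))

end Pool.Agent.Results.MP_bf81c2_nt.CountsAtPowersAndDenominators
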