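import Pool.Agent.Results.MP_bf81c2_nt.LinnikExponent
import Pool.Agent.X35.ZW.Count

/-!
# The number of the extensions of degree `n` of a number field with discriminants near `α v_i`
-/

set_option autoImplicit false

namespace Pool.Agent.Results.MP_bf81c2_nt.FieldsInWindows

open NumberField

/-- The extensions `L` of degree `n` of the number field `K` inside the algebraic closure of `K` whose absolute discriminant `D_L` satisfies
`||D_L| - x| ≤ y`. -/
def Window (K : Type) [Field K] [NumberField K] (n : ℕ) (x y : ℝ) : Set (IntermediateField K (AlgebraicClosure K)) :=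
  {L | Module.finrank K L = n ∧ ∃ h : NumberField L, |((|@NumberField.discr L _ h| : ℤ) : ℝ) - x| ≤ y}

open Classical in
/-- the absolute value of the discriminant -/
noncomputable def ht (K : Type) [Field K] [NumberField K] (L : IntermediateField K (AlgebraicClosure K)) : ℝ :=
  if h : NumberField L then ((|@NumberField.discr L _ h| : ℤ) : ℝ) else 0

/-- There is a function `e(n) ≥ 1` whose growth is at most `(1 / (8 (log 2)²) + o(1)) (log n)²`, such that, for every number field `K` and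
every `n ≥ 2`, the number of the extensions `L` of degree `n` of `K` with `|D_L| ≤ X` is `O(X ^ e(n))`, and for all reals `v_i ≥ 1` with
`∑ v_i ^ (-t) < ∞` for all `t > τ` (`τ ≥ 0`; for example `v_i = 2 ^ i`, `τ = 0`), all `0 ≤ θ < 1` and `0 ≤ β ≤ e(n)` there is a set `E`
of reals of Hausdorff dimension at most `(e(n) - β + τ) / (1 - θ)` with the following property: for every `α > 0` outside `E` and all
`i ≥ i₀` the number of the extensions `L` of degree `n` of `K` with `||D_L| - α v_i| ≤ v_i ^ θ` is at most `v_i ^ β`. In particular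
(`τ = 0`) it is at most `v_i ^ (e(n) - 1 + θ + ε)` for almost every `α`. -/
theorem result : ∃ e : ℕ → ℝ,
    (∀ c : ℝ, 1 / (8 * (Real.log 2) ^ 2) < c → ∀ᶠ n : ℕ in Filter.atTop, e n ≤ c * (Real.log n) ^ 2) ∧ (∀ n, 1 ≤ e n) ∧
    ∀ (K : Type) [Field K] [NumberField K] (n : ℕ), 2 ≤ n →
      (∃ C : ℝ, ∀ X : ℝ, 1 ≤ X → (Window K n 0 X).Finite ∧ ((Window K n 0 X).ncard : ℝ) ≤ C * X ^ e n) ∧
      ∀ (v : ℕ → ℝ) (τ θ β : ℝ), (∀ i, 1 ≤ v i) → 0 ≤ τ → 0 ≤ θ → θ < 1 → (∀ t : ℝ, τ < t → Summable (fun i => v i ^ (-t))) →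
        0 ≤ β → β ≤ e n →
        ∃ E : Set ℝ, dimH E ≤ ENNReal.ofReal ((e n - β + τ) / (1 - θ)) ∧
          ∀ α : ℝ, 0 < α → α ∉ E → ∃ i₀ : ℕ, ∀ i : ℕ, i₀ ≤ i →
            (Window K n (α * v i) (v i ^ θ)).Finite ∧ ((Window K n (α * v i) (v i ^ θ)).ncard : ℝ) ≤ v i ^ β := by
  classical
  obtain ⟨e₀, he1, he2⟩ := Pool.Agent.Results.MP_bf81c2_nt.LinnikExponent.result
  obtain ⟨e, he⟩ : ∃ e : ℕ → ℝ, ∀ n, e n = max (e₀ n) 1 := ⟨_, fun _ => rfl⟩
  refine ⟨e, fun c hc => ?_, fun n => ?_, ?_⟩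
  · have hc0 : 0 < c := lt_trans (by have := Real.log_pos (show (1 : ℝ) < 2 by norm_num); positivity) hc
    have hlog : Filter.Tendsto (fun n : ℕ => Real.log n) Filter.atTop Filter.atTop :=
      Real.tendsto_log_atTop.comp tendsto_natCast_atTop_atTop
    have h1 : Filter.Tendsto (fun n : ℕ => c * (Real.log n) ^ 2) Filter.atTop Filter.atTop :=
      Filter.Tendsto.const_mul_atTop hc0 ((Filter.tendsto_pow_atTop two_ne_zero).comp hlog)
    filter_upwards [he1 c hc, h1.eventually_ge_atTop 1] with n hn1 hn2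
    rw [he]
    exact max_le hn1 hn2
  · rw [he]
    exact le_max_right _ _
  intro K _ _ n hn
  obtain ⟨C, hC⟩ := he2 n hn (Module.finrank ℚ K)
  have hC₀ := hC K rfl
  have hC' : ∀ X : ℝ, 1 ≤ X → (Pool.Agent.Results.MP_bf81c2_nt.LinnikExponent.Fields K n X).Finite ∧
      ((Pool.Agent.Results.MP_bf81c2_nt.LinnikExponent.Fields K n X).ncard : ℝ) ≤ |C| * X ^ e n := by
    intro X hX
    refine ⟨(hC₀ X hX).1, (hC₀ X hX).2.trans ?_⟩
    have h1 : X ^ e₀ n ≤ X ^ e n := Real.rpow_le_rpow_of_exponent_le hX (by rw [he]; exact le_max_left _ _)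
    exact (mul_le_mul_of_nonneg_right (le_abs_self C) (by positivity)).trans (mul_le_mul_of_nonneg_left h1 (abs_nonneg C))
  refine ⟨⟨|C|, fun X hX => ?_⟩, ?_⟩
  · have hW : Window K n 0 X = Pool.Agent.Results.MP_bf81c2_nt.LinnikExponent.Fields K n X := by
      ext L
      constructor
      · rintro ⟨h1, h2, h3⟩
        refine ⟨h1, h2, ?_⟩
        rw [sub_zero] at h3
        exact (le_abs_self _).trans h3
      · rintro ⟨h1, h2, h3⟩
        refine ⟨h1, h2, ?_⟩
        rw [sub_zero, abs_of_nonneg (by exact_mod_cast abs_nonneg _)]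
        exact h3
    rw [hW]
    exact hC' X hX
  intro v τ θ β hv1 hτ hθ0 hθ hv hβ0 hβ
  have hhe : ∀ X : ℝ, {L | L ∈ {L : IntermediateField K (AlgebraicClosure K) | Module.finrank K L = n ∧ NumberField L} ∧ ht K L ≤ X} =
      Pool.Agent.Results.MP_bf81c2_nt.LinnikExponent.Fields K n X := by
    intro X
    ext L
    constructor
    · rintro ⟨⟨h1, h2⟩, h3⟩
      refine ⟨h1, h2, ?_⟩
      unfold ht at h3
      rwa [dif_pos h2] at h3
    · rintro ⟨h1, h2, h3⟩
      refine ⟨⟨h1, h2⟩, ?_⟩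
      unfold ht
      rwa [dif_pos h2]
  obtain ⟨E, hE, h⟩ := Pool.Agent.X35.ZW.count_windows {L : IntermediateField K (AlgebraicClosure K) | Module.finrank K L = n ∧ NumberField L} (ht K)
    (e n) β hβ0 (by linarith) (by
      intro ε hε
      refine ⟨|C|, fun X hX => ?_⟩
      rw [hhe X]
      refine ⟨(hC' X hX).1, (hC' X hX).2.trans ?_⟩
      have h1 : X ^ e n ≤ X ^ (e n + ε) := Real.rpow_le_rpow_of_exponent_le hX (by linarith)
      exact mul_le_mul_of_nonneg_left h1 (abs_nonneg C))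
    hv1 hτ hv hθ0 hθ
  refine ⟨E, hE, fun α hα hαE => ?_⟩
  obtain ⟨i₀, hi₀⟩ := h α hα hαE
  refine ⟨i₀, fun i hi => ?_⟩
  have hw : {L | L ∈ {L : IntermediateField K (AlgebraicClosure K) | Module.finrank K L = n ∧ NumberField L} ∧ |ht K L - α * v i| ≤ v i ^ θ} =
      Window K n (α * v i) (v i ^ θ) := by
    ext L
    constructor
    · rintro ⟨⟨h1, h2⟩, h3⟩
      refine ⟨h1, h2, ?_⟩
      unfold ht at h3
      rwa [dif_pos h2] at h3
    · rintro ⟨h1, h2, h3⟩
      refine ⟨⟨h1, h2⟩, ?_⟩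
      unfold ht
      rwa [dif_pos h2]
  have h1 := hi₀ i hi
  rwa [hw] at h1

end Pool.Agent.Results.MP_bf81c2_nt.FieldsInWindows
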