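import Pool.Agent.X308.W.All

/-!
# Counting all extensions of degree `n`: one base field controls all its extensions

`M_{n,K}(X)` is the number of extensions `L/K` of degree `n` (in the algebraic closure) with
`|d_L| ≤ X`, the absolute discriminant.

* For every extension `K/k` of degree `m`: `M_{n,K}(X) ≤ M_{mn,k}(X)`, and the sum of the
  `M_{n,K}(X)` over any finite set of fields `K` of degree `m` over `k` (in the algebraic closure)
  is at most `2 ^ (m n) M_{mn,k}(X)`.
* If `M_{mn,k}(X) ~ c X` then `M_{n,K}(X) ≤ C X` for all `X ≥ 1` and all `K/k` of degree `m`, with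
  one constant `C`.
* If moreover `M_{n,K}(X) ~ c(K) X` for all `K` of degree `m` over `k`, then `c(K) ≤ c` and the sum
  of all `c(K)` converges and is at most `2 ^ (m n) c`.
-/

set_option autoImplicit false

namespace Pool.Agent.Results.MP_bf81c2_nt.UniformOverFields

open Pool.Agent.X308.W Filter

/-- `M_{n,K}(X) ~ c X`, or `o(X)` if `c = 0`. -/
def Asymp (K : Type) [Field K] (n : ℕ) (c : ℝ) : Prop :=
  Tendsto (fun X : ℝ => ((Fields K n X).ncard : ℝ) / X) atTop (nhds c)

theorem result (k : Type) [Field k] [NumberField k] (m n : ℕ) :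
    (∀ (K : Type) [Field K] [NumberField K] [Algebra k K], Module.finrank k K = m → ∀ X : ℝ,
      (Fields K n X).Finite ∧ (Fields K n X).ncard ≤ (Fields k (m * n) X).ncard) ∧
    (∀ (X : ℝ) (T : Finset (IntermediateField k (AlgebraicClosure k))),
      (∀ K ∈ T, Module.finrank k K = m) →
      ∑ K ∈ T, (Fields K n X).ncard ≤ 2 ^ (m * n) * (Fields k (m * n) X).ncard) ∧
    ∀ c : ℝ, Asymp k (m * n) c →
      (∃ C : ℝ, ∀ (K : Type) [Field K] [NumberField K] [Algebra k K], Module.finrank k K = m →
        ∀ X : ℝ, 1 ≤ X → ((Fields K n X).ncard : ℝ) ≤ C * X) ∧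
      ∀ c' : {K : IntermediateField k (AlgebraicClosure k) // Module.finrank k K = m} → ℝ,
        (∀ K, Asymp K.1 n (c' K)) →
        (∀ K, 0 ≤ c' K ∧ c' K ≤ c) ∧ Summable c' ∧ ∑' K, c' K ≤ 2 ^ (m * n) * c := by
  classical
  refine ⟨fun K _ _ _ hm X => ⟨finite_Fields K n X, card_le k K hm n X⟩,
    fun X T hT => sum_le k m n X T hT, fun c hc => ⟨?_, ?_⟩⟩
  · have h1 : ∀ᶠ X : ℝ in atTop, ((Fields k (m * n) X).ncard : ℝ) / X < c + 1 :=
      hc.eventually (gt_mem_nhds (by linarith))
    obtain ⟨X₀, hX₀⟩ := eventually_atTop.1 (h1.and (eventually_gt_atTop (0 : ℝ)))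
    refine ⟨max (c + 1) 0 + (Fields k (m * n) X₀).ncard, fun K _ _ _ hm X hX => ?_⟩
    have h2 : ((Fields K n X).ncard : ℝ) ≤ (Fields k (m * n) X).ncard := by
      exact_mod_cast card_le k K hm n X
    have h4 : (0 : ℝ) ≤ (Fields k (m * n) X₀).ncard := by positivity
    have h5 : (0 : ℝ) ≤ max (c + 1) 0 := le_max_right _ _
    rcases le_or_gt X₀ X with h | h
    · obtain ⟨h6, h7⟩ := hX₀ X h
      rw [div_lt_iff₀ h7] at h6
      have h8 : (c + 1) * X ≤ max (c + 1) 0 * X :=
        mul_le_mul_of_nonneg_right (le_max_left _ _) h7.le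
      nlinarith
    · have h6 : ((Fields k (m * n) X).ncard : ℝ) ≤ (Fields k (m * n) X₀).ncard := by
        have : Fields k (m * n) X ⊆ Fields k (m * n) X₀ := by
          rintro L ⟨h1, hL, h3⟩
          exact ⟨h1, hL, h3.trans h.le⟩
        exact_mod_cast Set.ncard_le_ncard this (finite_Fields k _ _)
      nlinarith
  · intro c' hc'
    have hfin : ∀ K : {K : IntermediateField k (AlgebraicClosure k) // Module.finrank k K = m},
        0 ≤ c' K := fun K => ge_of_tendsto (hc' K)
          ((eventually_gt_atTop (0 : ℝ)).mono fun X hX => by positivity)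
    have hsum : ∀ T : Finset {K : IntermediateField k (AlgebraicClosure k) //
        Module.finrank k K = m}, ∑ K ∈ T, c' K ≤ 2 ^ (m * n) * c := by
      intro T
      have h1 : Tendsto (fun X : ℝ => ∑ K ∈ T, ((Fields K.1 n X).ncard : ℝ) / X) atTop
          (nhds (∑ K ∈ T, c' K)) := tendsto_finsetSum _ fun K _ => hc' K
      have h2 : Tendsto (fun X : ℝ => 2 ^ (m * n) * (((Fields k (m * n) X).ncard : ℝ) / X)) atTop
          (nhds (2 ^ (m * n) * c)) := hc.const_mul _
      refine le_of_tendsto_of_tendsto h1 h2 ((eventually_gt_atTop (0 : ℝ)).mono fun X hX => ?_)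
      have h3 := sum_le k m n X (T.map (Function.Embedding.subtype _)) (by
        intro K hK
        obtain ⟨K', -, rfl⟩ := Finset.mem_map.1 hK
        exact K'.2)
      rw [Finset.sum_map] at h3
      have h4 : (∑ K ∈ T, ((Fields K.1 n X).ncard : ℝ)) ≤
          2 ^ (m * n) * ((Fields k (m * n) X).ncard : ℝ) := by exact_mod_cast h3
      change ∑ K ∈ T, ((Fields K.1 n X).ncard : ℝ) / X ≤
        2 ^ (m * n) * (((Fields k (m * n) X).ncard : ℝ) / X)
      rw [← Finset.sum_div, ← mul_div_assoc]
      exact div_le_div_of_nonneg_right h4 hX.le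
    refine ⟨fun K => ⟨hfin K, ?_⟩, summable_of_sum_le hfin hsum,
      Real.tsum_le_of_sum_le hfin hsum⟩
    by_cases hm0 : m = 0
    · have h0 := K.2
      refine le_of_tendsto_of_tendsto (hc' K) hc
        ((eventually_gt_atTop (0 : ℝ)).mono fun X hX => ?_)
      have he : Fields K.1 n X = ∅ := by
        refine Set.eq_empty_of_forall_notMem ?_
        rintro L ⟨-, hL, -⟩
        have hLf : FiniteDimensional ℚ L := hL.to_finiteDimensional
        have h3 : FiniteDimensional k L := Module.Finite.of_restrictScalars_finite ℚ k L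
        have h4 : FiniteDimensional k K.1 := FiniteDimensional.left k K.1 L
        have h5 : 0 < Module.finrank k K.1 := Module.finrank_pos
        omega
      simp only [he, Set.ncard_empty, Nat.cast_zero, zero_div]
      positivity
    · have h4 : FiniteDimensional k K.1 := FiniteDimensional.of_finrank_pos (by
        rw [K.2]; omega)
      have h5 : NumberField K.1 := NumberField.of_module_finite k K.1
      refine le_of_tendsto_of_tendsto (hc' K) hc
        ((eventually_gt_atTop (0 : ℝ)).mono fun X hX => ?_)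
      have h6 : ((Fields K.1 n X).ncard : ℝ) ≤ (Fields k (m * n) X).ncard := by
        exact_mod_cast card_le k K.1 K.2 n X
      exact div_le_div_of_nonneg_right h6 hX.le

end Pool.Agent.Results.MP_bf81c2_nt.UniformOverFields
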